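import Pool.Agent.H52T.Up

set_option autoImplicit false

/-! Upper bounds for the typical ranks of the pattern of an `n × n` matrix with free diagonal: if
`(c - 1) 2 ^ c < n`, or if `c = 3` and `n ≥ 13`, then every typical rank is at most `n - c`, and
there are at most `⌊√n⌋ + 1 - c` typical ranks. -/

open Matrix

namespace Pool.Agent.Results.MP_b67302_ag.FewTypicalRanks

theorem result (n c : ℕ) (hc : (c - 1) * 2 ^ c < n ∨ (c = 3 ∧ 13 ≤ n)) (S : Finset ℕ)
    (hS : ∀ r ∈ S, (interior {A : Matrix (Fin n) (Fin n) ℝ |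
      sInf {k : ℕ | ∃ d : Fin n → ℝ, (A + Matrix.diagonal d).rank = k} = r}).Nonempty) :
    (∀ r ∈ S, r + c ≤ n) ∧ S.card + c ≤ Nat.sqrt n + 1 := by
  refine Pool.Agent.H52T.count (fun A => ?_) S hS
  rcases hc with hc | ⟨rfl, hc⟩
  · exact Pool.Agent.H52T.forced_general c (by rwa [Fintype.card_fin]) A
  · exact Pool.Agent.H52T.forced_three (by rwa [Fintype.card_fin]) A

end Pool.Agent.Results.MP_b67302_ag.FewTypicalRanks
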