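import Pool.Agent.H42.TR.High

set_option autoImplicit false

/-! For every `k ≥ 1` and `n = 4 k²`, both `n - 2 k` and `n - 2 k + 1` are typical ranks of the
pattern of an `n × n` matrix with free diagonal. -/

open Matrix Set Filter Topology

namespace Pool.Agent.Results.MP_b67302_ag.TwoTypicalRanks

open Pool.Agent.H42.TR

theorem result (k : ℕ) (hk : 1 ≤ k) :
    (interior {A : Matrix (Fin (4 * k ^ 2)) (Fin (4 * k ^ 2)) ℝ |
      sInf {s : ℕ | ∃ d : Fin (4 * k ^ 2) → ℝ, (A + Matrix.diagonal d).rank = s} =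
        4 * k ^ 2 - 2 * k}).Nonempty ∧
    (interior {A : Matrix (Fin (4 * k ^ 2)) (Fin (4 * k ^ 2)) ℝ |
      sInf {s : ℕ | ∃ d : Fin (4 * k ^ 2) → ℝ, (A + Matrix.diagonal d).rank = s} =
        4 * k ^ 2 - 2 * k + 1}).Nonempty := by
  obtain ⟨c', hc'⟩ : ∃ c', 2 * k = c' + 1 := ⟨2 * k - 1, by omega⟩
  have hk2 : 1 ≤ k ^ 2 := Nat.one_le_pow _ _ hk
  obtain ⟨m', hm'⟩ : ∃ m', 2 * k ^ 2 = m' + 1 := ⟨2 * k ^ 2 - 1, by omega⟩
  have hcc : (c' + 1) * (c' + 1) = 4 * k ^ 2 := by rw [← hc']; ring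
  have hmm : (m' + 1) + (m' + 1) = 4 * k ^ 2 := by rw [← hm']; ring
  have hle : 2 * k ≤ 2 * k ^ 2 := by nlinarith
  -- the two equivalences
  let e1 : Ix c' ≃ Fin (4 * k ^ 2) := Fintype.equivFinOfCardEq (by simp [hcc])
  let e2 : Fin (m' + 1) ⊕ Fin (m' + 1) ≃ Fin (4 * k ^ 2) :=
    Fintype.equivFinOfCardEq (by simp [hmm])
  -- low
  obtain ⟨A0, hA0⟩ := exists_low c'
  obtain ⟨U, hU0, hUo, hAU⟩ := eventually_nhds_iff.mp hA0
  -- high
  obtain ⟨M, hM⟩ := exists_real (m' := m') (r := m' + 1 - 2 * k) (c := 2 * k) (by omega)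
    (by nlinarith)
  let U1 : Set (Matrix (Fin (4 * k ^ 2)) (Fin (4 * k ^ 2)) ℝ) :=
    (fun A => A.submatrix e1 e1) ⁻¹' U
  let U2 : Set (Matrix (Fin (4 * k ^ 2)) (Fin (4 * k ^ 2)) ℝ) :=
    (fun A => A.submatrix e2 e2) ⁻¹' (Bad (circ (Fin (m' + 1) ⊕ Fin (m' + 1))) (2 * k))ᶜ
  have h := typical_pair (r := 4 * k ^ 2 - 2 * k) (U := U1) (V := U2) ?_ ?_ ?_ ?_ ?_ ?_
  · exact h
  · exact hUo.preimage (Continuous.matrix_submatrix continuous_id _ _)
  · exact (isClosed_Bad isCompact_circ _).isOpen_compl.preimage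
      (Continuous.matrix_submatrix continuous_id _ _)
  · refine ⟨A0.submatrix e1.symm e1.symm, ?_⟩
    change (A0.submatrix e1.symm e1.symm).submatrix e1 e1 ∈ U
    simpa using hAU
  · refine ⟨M.submatrix e2.symm e2.symm, ?_⟩
    have h1 : (M.submatrix e2.symm e2.symm).submatrix e2 e2 = M := by simp
    change (M.submatrix e2.symm e2.symm).submatrix e2 e2 ∉
      Bad (circ (Fin (m' + 1) ⊕ Fin (m' + 1))) (2 * k)
    rw [h1]
    exact hM
  · intro A hA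
    rw [← crank_submatrix e1 A]
    refine (hU0 _ hA).trans ?_
    have h1 : (c' + 1) * c' + (c' + 1) = 4 * k ^ 2 := by rw [← hcc]; ring
    omega
  · intro A hA
    rw [← crank_submatrix e2 A]
    by_contra hlt
    have h1 : A.submatrix e2 e2 ∉ Bad (circ (Fin (m' + 1) ⊕ Fin (m' + 1))) (2 * k) := hA
    refine h1 (mem_Bad_of_crank ?_)
    rw [Fintype.card_sum, Fintype.card_fin, hmm]
    omega

end Pool.Agent.Results.MP_b67302_ag.TwoTypicalRanks
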